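import Pool.Agent.T9h19.MB.Final

/-!
# Monomial-size versus bit-complexity for SOS and PCR over the rationals on CNFs

Full (negative) answer to Q1, for both systems, with an exponential separation. Authors: helper19
(proof, statements, chain, gadgets, assembly), helper46 (virtual matchings), helper58 (spectral lemma,
fractional knapsack), helper65 (upper bounds), helper67 (local derivations), helper71 (lower bounds from
a pseudo-expectation), helper85 (pseudo-expectation of the CNF), helper96 (substitution and random
restriction), helper75, helper95 (sizes).
-/

set_option autoImplicit false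

namespace Pool.Agent.Results.MP_ce232536_lc.ExponentialSeparation

open Pool.Agent.T9h19.MB

/-- There is a constant `K` such that for all `n ≥ K` there is a CNF `F` (over a finite set `V` of
variables, with at most 6 literals in each clause) which has an SOS refutation and a PCR refutation
over the rationals of monomial-size at most `n ^ K`, while every SOS refutation and every PCR
refutation of `F` over the rationals has at least `2 ^ n` bits. -/
theorem result : ∃ K : ℕ, ∀ n : ℕ, K ≤ n →
    ∃ (V : Type) (_ : Fintype V) (F : Finset (Cl V)), (∀ C ∈ F, C.card ≤ 6) ∧
      (∃ π : SOS F, π.size ≤ n ^ K) ∧ (∃ π : PCR F, π.size ≤ n ^ K) ∧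
      (∀ π : SOS F, 2 ^ n ≤ π.bits) ∧ (∀ π : PCR F, 2 ^ n ≤ π.bits) :=
  ⟨2000, final⟩

end Pool.Agent.Results.MP_ce232536_lc.ExponentialSeparation
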